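import Pool.Agent.Helper41.LD2.Defs
import Pool.Agent.Helper5.LD.GA
import Pool.Agent.Helper34.LD.WA

/-!
# Project LD2: linearisation of the powers on a window, products of two Haar functions with a general ratio
-/

set_option autoImplicit false
set_option linter.unusedVariables false

namespace Pool.Agent.Helper67.LD2

open Set MeasureTheory
open Pool.Agent.Helper41.LD (av ind haar)
open Pool.Agent.Helper41.LD2
open Pool.Agent.Helper5.LD (ind_meas haar_meas ind_nonneg ind_le_one haar_abs ind_per haar_per ii_bdd int_le_len ind_zero ind_fract)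

/-! ### equidistribution -/

theorem sum_ind {α : ℝ} {Q₀ : ℕ} {ε : ℝ} (hE : EqA α Q₀ ε) {k i : ℕ} (hi : i < 2 ^ k)
    {Q : ℕ} (hQ : Q₀ ≤ Q) (x : ℝ) : |∑ m ∈ Finset.range Q, ind k i (m * α + x) - Q * (1 / 2) ^ k| ≤ ε * Q := by
  have h4 : (0 : ℝ) < 2 ^ k := by positivity
  have hi1 : ((i : ℝ) + 1) ≤ 2 ^ k := by exact_mod_cast hi
  have h := hE Q hQ x (i / 2 ^ k) ((i + 1) / 2 ^ k) (by positivity)
    (div_le_div_of_nonneg_right (by linarith) h4.le) ((div_le_one h4).2 hi1)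
  have e1 : ∑ m ∈ Finset.range Q, ind k i (m * α + x) = (((Finset.range Q).filter fun m : ℕ =>
      (i : ℝ) / 2 ^ k ≤ Int.fract (m * α + x) ∧ Int.fract (m * α + x) < (i + 1) / 2 ^ k).card : ℝ) := by
    rw [Finset.card_filter, Nat.cast_sum]
    refine Finset.sum_congr rfl fun m _ => ?_
    rw [ind_fract]
    split_ifs <;> simp
  have e2 : ((i : ℝ) + 1) / 2 ^ k - i / 2 ^ k = (1 / 2) ^ k := by
    rw [← sub_div, show (i : ℝ) + 1 - i = 1 by ring, one_div, one_div, inv_pow]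
  rw [e1, ← e2]
  exact h

theorem sum_haar {α : ℝ} {Q₀ : ℕ} {ε : ℝ} (hE : EqA α Q₀ ε) (hε : 0 ≤ ε) (k i : ℕ)
    {Q : ℕ} (hQ : Q₀ ≤ Q) (x : ℝ) : |∑ m ∈ Finset.range Q, haar k i (m * α + x)| ≤ 2 * ε * Q := by
  by_cases hi : i < 2 ^ k
  · have a1 := sum_ind hE (k := k + 1) (i := 2 * i) (by rw [pow_succ]; omega) hQ x
    have a2 := sum_ind hE (k := k + 1) (i := 2 * i + 1) (by rw [pow_succ]; omega) hQ x
    have e : ∑ m ∈ Finset.range Q, haar k i (m * α + x) =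
        (∑ m ∈ Finset.range Q, ind (k + 1) (2 * i) (m * α + x) - Q * (1 / 2) ^ (k + 1)) -
        (∑ m ∈ Finset.range Q, ind (k + 1) (2 * i + 1) (m * α + x) - Q * (1 / 2) ^ (k + 1)) := by
      unfold haar
      rw [Finset.sum_sub_distrib]
      ring
    rw [e]
    have h3 := abs_sub (∑ m ∈ Finset.range Q, ind (k + 1) (2 * i) (m * α + x) - Q * (1 / 2) ^ (k + 1))
      (∑ m ∈ Finset.range Q, ind (k + 1) (2 * i + 1) (m * α + x) - Q * (1 / 2) ^ (k + 1))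
    linarith
  · have hz : ∀ t, haar k i t = 0 := fun t => by
      unfold haar
      rw [ind_zero (by rw [pow_succ]; omega), ind_zero (by rw [pow_succ]; omega), sub_zero]
    simp only [hz, Finset.sum_const_zero, abs_zero]
    positivity

/-- product with the `α` times faster one: equidistribution of the phases -/
theorem pair_equi_gen {α : ℝ} {Q₀ : ℕ} {ε : ℝ} (hE : EqA α Q₀ ε) (hε : 0 ≤ ε) {β : ℝ} (hβ : 0 < β)
    (k i k' i' : ℕ) (c d a b : ℝ) (hab : (Q₀ : ℝ) + 1 ≤ β * (b - a)) :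
    |∫ x in a..b, haar k i (β * x + d) * haar k' i' (β * α * x + c)| ≤ 2 * ε * (b - a) + 1 / β := by
  set c' : ℝ := c - α * d with hc'
  set F : ℝ → ℝ := fun y => haar k i y * haar k' i' (α * y + c') with hF
  have hFm : Measurable F := (haar_meas k i).mul ((haar_meas k' i').comp ((measurable_const_mul α).add_const c'))
  have hF1 : ∀ y, |F y| ≤ 1 := fun y => by
    rw [hF]
    show |haar k i y * haar k' i' (α * y + c')| ≤ 1
    rw [abs_mul]
    exact mul_le_one₀ (haar_abs _ _ _) (abs_nonneg _) (haar_abs _ _ _)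
  have hint : ∀ u v, IntervalIntegrable F volume u v := fun u v => ii_bdd hFm hF1 u v
  have e1 : ∫ x in a..b, haar k i (β * x + d) * haar k' i' (β * α * x + c) =
      β⁻¹ * ∫ y in β * a + d..β * b + d, F y := by
    have h0 := intervalIntegral.integral_comp_mul_add (a := a) (b := b) F hβ.ne' d
    rw [smul_eq_mul] at h0
    rw [← h0]
    refine intervalIntegral.integral_congr fun x _ => ?_
    show haar k i (β * x + d) * haar k' i' (β * α * x + c) = haar k i (β * x + d) * haar k' i' (α * (β * x + d) + c')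
    congr 2
    rw [hc']
    ring
  set Y : ℝ := β * a + d with hY
  set Q : ℕ := ⌊β * (b - a)⌋₊ with hQ
  have hQ0 : (0 : ℝ) ≤ Q₀ := Nat.cast_nonneg _
  have hba : 0 ≤ β * (b - a) := by linarith
  have hQ1 := Nat.floor_le hba
  have hQ2 := Nat.lt_floor_add_one (β * (b - a))
  rw [← hQ] at hQ1 hQ2
  have hQQ : Q₀ ≤ Q := by
    rw [hQ]
    exact Nat.le_floor (by linarith)
  have e2 : ∫ y in Y..Y + Q, F y = ∫ t in (0 : ℝ)..1, ∑ m ∈ Finset.range Q, F (Y + m + t) := by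
    have h2 := intervalIntegral.sum_integral_adjacent_intervals (μ := volume) (f := F) (a := fun m : ℕ => Y + m) (n := Q)
      fun m _ => hint _ _
    simp only [Nat.cast_zero, add_zero] at h2
    rw [← h2, intervalIntegral.integral_finsetSum fun m _ => ?_]
    · refine Finset.sum_congr rfl fun m _ => ?_
      rw [intervalIntegral.integral_comp_add_left F (Y + m)]
      congr 1 <;> push_cast <;> ring
    · refine ii_bdd (hFm.comp (measurable_const_add (Y + m))) (fun x => hF1 _) 0 1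
  have h3 : |∫ y in Y..Y + Q, F y| ≤ 2 * ε * Q := by
    rw [e2]
    have h4 := intervalIntegral.norm_integral_le_of_norm_le_const (a := (0 : ℝ)) (b := 1)
      (f := fun t => ∑ m ∈ Finset.range Q, F (Y + m + t)) (C := 2 * ε * Q) fun t _ => ?_
    · rw [Real.norm_eq_abs] at h4
      simpa using h4
    · have e3 : ∑ m ∈ Finset.range Q, F (Y + m + t) = haar k i (Y + t) * ∑ m ∈ Finset.range Q, haar k' i' (m * α + (α * (Y + t) + c')) := by
        rw [Finset.mul_sum]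
        refine Finset.sum_congr rfl fun m _ => ?_
        show haar k i (Y + m + t) * haar k' i' (α * (Y + m + t) + c') = _
        have e4 : haar k i (Y + m + t) = haar k i (Y + t) := by
          have := (haar_per k i).nat_mul m (Y + t)
          rw [mul_one] at this
          rw [← this]
          congr 1
          ring
        rw [e4]
        congr 2
        ring
      rw [Real.norm_eq_abs, e3, abs_mul]
      calc |haar k i (Y + t)| * |∑ m ∈ Finset.range Q, haar k' i' (m * α + (α * (Y + t) + c'))| ≤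
            1 * (2 * ε * Q) := mul_le_mul (haar_abs _ _ _) (sum_haar hE hε k' i' hQQ _) (abs_nonneg _) zero_le_one
        _ = 2 * ε * Q := one_mul _
  have h5 : |∫ y in Y + Q..β * b + d, F y| ≤ 1 := by
    refine (int_le_len hF1 ?_).trans ?_
    · rw [hY]; linarith
    · rw [hY]; linarith
  rw [e1, ← intervalIntegral.integral_add_adjacent_intervals (hint Y (Y + Q)) (hint (Y + Q) (β * b + d)), abs_mul,
    abs_of_pos (inv_pos.2 hβ)]
  have h6 := abs_add_le (∫ y in Y..Y + Q, F y) (∫ y in Y + Q..β * b + d, F y)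
  have h7 : 2 * ε * (Q : ℝ) ≤ 2 * ε * (β * (b - a)) := mul_le_mul_of_nonneg_left hQ1 (by linarith)
  have h8 : β⁻¹ * |(∫ y in Y..Y + Q, F y) + ∫ y in Y + Q..β * b + d, F y| ≤ β⁻¹ * (2 * ε * (β * (b - a)) + 1) :=
    mul_le_mul_of_nonneg_left (by linarith) (inv_pos.2 hβ).le
  refine h8.trans (le_of_eq ?_)
  field_simp

/-! ### linearisation -/

/-- the indicator of the end of the period -/
noncomputable def gE (η y : ℝ) : ℝ := if 1 - η ≤ Int.fract y then 1 else 0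

lemma gE_nonneg (η y : ℝ) : 0 ≤ gE η y := by unfold gE; split_ifs <;> norm_num

lemma gE_le (η y : ℝ) : gE η y ≤ 1 := by unfold gE; split_ifs <;> norm_num

lemma gE_abs (η y : ℝ) : |gE η y| ≤ 1 := by
  rw [abs_of_nonneg (gE_nonneg _ _)]
  exact gE_le _ _

lemma gE_meas (η : ℝ) : Measurable (gE η) :=
  Measurable.ite (measurableSet_le measurable_const measurable_fract) measurable_const measurable_const

lemma gE_per (η : ℝ) : Function.Periodic (gE η) 1 := by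
  intro y
  unfold gE
  rw [Int.fract_add_one]

lemma gE_int {η : ℝ} (h0 : 0 ≤ η) (h1 : η ≤ 1) : ∫ y in (0 : ℝ)..1, gE η y = η := by
  have hI : ∀ u v, IntervalIntegrable (gE η) volume u v := fun u v => ii_bdd (gE_meas η) (gE_abs η) u v
  rw [← intervalIntegral.integral_add_adjacent_intervals (hI 0 (1 - η)) (hI (1 - η) 1)]
  have e1 : ∫ y in (0 : ℝ)..(1 - η), gE η y = ∫ _y in (0 : ℝ)..(1 - η), (0 : ℝ) := by
    refine intervalIntegral.integral_congr_Ioo_of_le (by linarith) fun y hy => ?_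
    show gE η y = 0
    unfold gE
    rw [Int.fract_eq_self.mpr ⟨hy.1.le, by linarith [hy.2]⟩, if_neg (not_le.mpr hy.2)]
  have e2 : ∫ y in (1 - η)..1, gE η y = ∫ _y in (1 - η)..1, (1 : ℝ) := by
    refine intervalIntegral.integral_congr_Ioo_of_le (by linarith) fun y hy => ?_
    show gE η y = 1
    unfold gE
    rw [Int.fract_eq_self.mpr ⟨by linarith [hy.1], hy.2⟩, if_pos hy.1.le]
  rw [e1, e2]
  simp

lemma gE_long {η : ℝ} (h0 : 0 ≤ η) (h1 : η ≤ 1) (u : ℝ) {len : ℝ} (hl : 0 ≤ len) :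
    ∫ y in u..(u + len), gE η y ≤ (len + 1) * η := by
  have hI : ∀ u v, IntervalIntegrable (gE η) volume u v := fun u v => ii_bdd (gE_meas η) (gE_abs η) u v
  obtain ⟨n, hn⟩ : ∃ n : ℤ, n = ⌈len⌉ := ⟨_, rfl⟩
  have hn1 : len ≤ n := by rw [hn]; exact Int.le_ceil _
  have hn2 : (n : ℝ) < len + 1 := by rw [hn]; exact Int.ceil_lt_add_one _
  have e1 := (gE_per η).intervalIntegral_add_zsmul_eq n u hI
  rw [(gE_per η).intervalIntegral_add_eq u 0, zero_add, gE_int h0 h1] at e1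
  simp only [zsmul_eq_mul, mul_one] at e1
  have e2 : (∫ y in u..(u + len), gE η y) + ∫ y in (u + len)..(u + n), gE η y = n * η := by
    rw [intervalIntegral.integral_add_adjacent_intervals (hI _ _) (hI _ _), e1]
  have e3 : 0 ≤ ∫ y in (u + len)..(u + n), gE η y :=
    intervalIntegral.integral_nonneg (by linarith) fun y _ => gE_nonneg _ _
  nlinarith

/-- a Haar function of a slightly larger argument -/
lemma haar_near (k p : ℕ) {y y' η : ℝ} (h1 : y ≤ y') (h2 : 2 ^ (k + 1) * (y' - y) ≤ η) :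
    |haar k p y' - haar k p y| ≤ 2 * gE η (2 ^ (k + 1) * y) := by
  by_cases h : ⌊(2 : ℝ) ^ (k + 1) * y'⌋ = ⌊(2 : ℝ) ^ (k + 1) * y⌋
  · have e : haar k p y' = haar k p y := by
      unfold haar
      rw [Pool.Agent.Helper34.LD.ind_congr le_rfl h, Pool.Agent.Helper34.LD.ind_congr le_rfl h]
    rw [e, sub_self, abs_zero]
    have := gE_nonneg η (2 ^ (k + 1) * y)
    linarith
  · have h3 : (2 : ℝ) ^ (k + 1) * y ≤ 2 ^ (k + 1) * y' := mul_le_mul_of_nonneg_left h1 (by positivity)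
    have h4 : ⌊(2 : ℝ) ^ (k + 1) * y⌋ < ⌊(2 : ℝ) ^ (k + 1) * y'⌋ := lt_of_le_of_ne (Int.floor_le_floor h3) fun e => h e.symm
    have h5 : ((⌊(2 : ℝ) ^ (k + 1) * y⌋ : ℝ)) + 1 ≤ 2 ^ (k + 1) * y' := by
      refine le_trans ?_ (Int.floor_le _)
      exact_mod_cast h4
    have h6 : 1 - η ≤ Int.fract ((2 : ℝ) ^ (k + 1) * y) := by
      have := Int.floor_add_fract ((2 : ℝ) ^ (k + 1) * y)
      linarith
    have e : gE η (2 ^ (k + 1) * y) = 1 := if_pos h6
    rw [e]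
    have a1 := haar_abs k p y
    have a2 := haar_abs k p y'
    have := abs_sub (haar k p y') (haar k p y)
    linarith

/-- Taylor's formula for a power -/
lemma taylor {a x : ℝ} (ha : 0 ≤ a) (hax : a ≤ x) (j : ℕ) :
    0 ≤ x ^ (j + 1) - a ^ (j + 1) - (j + 1) * a ^ j * (x - a) ∧
    x * (x ^ (j + 1) - a ^ (j + 1) - (j + 1) * a ^ j * (x - a)) ≤ j * (j + 1) / 2 * x ^ j * (x - a) ^ 2 := by
  have hx : 0 ≤ x := ha.trans hax
  induction j with
  | zero =>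
    simp only [Nat.cast_zero, zero_add, pow_one, pow_zero, mul_one, one_mul]
    constructor
    · linarith
    · nlinarith
  | succ j ih =>
    obtain ⟨ih1, ih2⟩ := ih
    have e : x ^ (j + 1 + 1) - a ^ (j + 1 + 1) - ((j + 1 : ℕ) + 1) * a ^ (j + 1) * (x - a) =
        x * (x ^ (j + 1) - a ^ (j + 1) - (j + 1) * a ^ j * (x - a)) + (j + 1) * a ^ j * (x - a) ^ 2 := by
      push_cast
      ring
    rw [e]
    have h1 : 0 ≤ ((j : ℝ) + 1) * a ^ j * (x - a) ^ 2 := by positivity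
    refine ⟨by have := mul_nonneg hx ih1; linarith, ?_⟩
    have h2 : a ^ j ≤ x ^ j := pow_le_pow_left₀ ha hax j
    have h3 : x * (x * (x ^ (j + 1) - a ^ (j + 1) - (j + 1) * a ^ j * (x - a))) ≤ x * (j * (j + 1) / 2 * x ^ j * (x - a) ^ 2) :=
      mul_le_mul_of_nonneg_left ih2 hx
    have h4 : x * (((j : ℝ) + 1) * a ^ j * (x - a) ^ 2) ≤ x * (((j : ℝ) + 1) * x ^ j * (x - a) ^ 2) := by
      refine mul_le_mul_of_nonneg_left ?_ hx
      refine mul_le_mul_of_nonneg_right ?_ (sq_nonneg _)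
      exact mul_le_mul_of_nonneg_left h2 (by positivity)
    have h5 : (((j + 1 : ℕ) : ℝ)) * ((j + 1 : ℕ) + 1) / 2 * x ^ (j + 1) * (x - a) ^ 2 =
        x * (j * (j + 1) / 2 * x ^ j * (x - a) ^ 2) + x * (((j : ℝ) + 1) * x ^ j * (x - a) ^ 2) := by
      push_cast
      ring
    rw [h5, mul_add]
    linarith

lemma pow_double {a ℓ : ℝ} (ha : 1 ≤ a) (hℓ : 0 ≤ ℓ) {j : ℕ} (hj : (j : ℝ) * ℓ ≤ 1 / 2) : (a + ℓ) ^ j ≤ 2 * a ^ j := by
  have ha0 : 0 < a := by linarith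
  have h1 : a + ℓ ≤ a * Real.exp ℓ := by
    have h2 := Real.add_one_le_exp ℓ
    nlinarith
  have h2 : (a + ℓ) ^ j ≤ (a * Real.exp ℓ) ^ j := pow_le_pow_left₀ (by positivity) h1 j
  have h3 : (a * Real.exp ℓ) ^ j = a ^ j * Real.exp (j * ℓ) := by
    rw [mul_pow, ← Real.exp_nat_mul]
  have h4 : Real.exp (j * ℓ) ≤ 2 := by
    have h5 : Real.exp (j * ℓ) ≤ Real.exp (Real.log 2) := by
      apply Real.exp_le_exp.mpr
      have := Real.log_two_gt_d9
      linarith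
    rwa [Real.exp_log two_pos] at h5
  rw [h3] at h2
  have h5 : a ^ j * Real.exp (j * ℓ) ≤ a ^ j * 2 := mul_le_mul_of_nonneg_left h4 (by positivity)
  linarith

section lin

variable {A₀ x₁ x₂ : ℝ} {c : ℕ → ℝ} {n₀ K n L r Q₀ : ℕ} {ε : ℝ}

lemma basic (P : PPar A₀ x₁ x₂ n₀ K n L r Q₀ ε) {a ℓ : ℝ} (ha : x₁ ≤ a) (hw : PWin A₀ n a ℓ) :
    0 < ℓ ∧ ((n : ℝ) + L + r + 1) ^ 2 * x₂ ^ (L + r) * 2 ^ (16 * K) * ℓ ≤ 1 / 2 := by
  have hA := P.hA
  have h1 := P.h1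
  have ha0 : 0 < a := by linarith
  have hv : 0 < vp A₀ n a := by
    unfold vp
    positivity
  have hℓ : 0 < ℓ := by
    by_contra h
    have : vp A₀ n a * ℓ ≤ 0 := mul_nonpos_of_nonneg_of_nonpos hv.le (not_lt.1 h)
    linarith [hw.1]
  refine ⟨hℓ, ?_⟩
  have h2 : A₀ * x₁ ^ n ≤ vp A₀ n a := by
    unfold vp
    have h3 : x₁ ^ n ≤ a ^ n := pow_le_pow_left₀ (by linarith) ha n
    have h4 : (1 : ℝ) ≤ (n : ℝ) + 1 := by
      have : (0 : ℝ) ≤ n := Nat.cast_nonneg n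
      linarith
    have h5 : A₀ * 1 * x₁ ^ n ≤ A₀ * ((n : ℝ) + 1) * a ^ n := by
      refine mul_le_mul (mul_le_mul_of_nonneg_left h4 hA.le) h3 ?_ (by positivity)
      exact pow_nonneg (by linarith) n
    linarith
  have h3 := P.hlin
  have h4 : 4 * ((n : ℝ) + L + r + 1) ^ 2 * x₂ ^ (L + r) * 2 ^ (16 * K) * ℓ ≤ vp A₀ n a * ℓ :=
    mul_le_mul_of_nonneg_right (h3.trans h2) hℓ.le
  have h5 := hw.2
  nlinarith

lemma speed (P : PPar A₀ x₁ x₂ n₀ K n L r Q₀ ε) {a ℓ : ℝ} (ha : x₁ ≤ a) (hb : a + ℓ ≤ x₂) (hw : PWin A₀ n a ℓ) {j : ℕ}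
    (hj : j ≤ n + L + r) : vp A₀ j a * ℓ ≤ 2 * (((n : ℝ) + L + r + 1) * x₂ ^ (L + r)) := by
  have hA := P.hA
  have h1 := P.h1
  obtain ⟨hℓ, -⟩ := basic P ha hw
  have ha1 : 1 ≤ a := by linarith
  have ha0 : 0 < a := by linarith
  have hx2 : 1 ≤ x₂ := by linarith [P.h12]
  have hax : a ≤ x₂ := by linarith
  have hn0 : (0 : ℝ) ≤ n := Nat.cast_nonneg n
  have hjr : ((j : ℝ) + 1) ≤ (n : ℝ) + L + r + 1 := by
    have : (j : ℝ) ≤ (n : ℝ) + L + r := by exact_mod_cast hj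
    linarith
  have hpow : a ^ j ≤ a ^ n * x₂ ^ (L + r) := by
    have h2 : a ^ j ≤ a ^ (n + (L + r)) := pow_le_pow_right₀ ha1 (by omega)
    rw [pow_add] at h2
    exact h2.trans (mul_le_mul_of_nonneg_left (pow_le_pow_left₀ ha0.le hax _) (by positivity))
  have h3 : vp A₀ j a ≤ vp A₀ n a * (((n : ℝ) + L + r + 1) * x₂ ^ (L + r)) := by
    unfold vp
    have h4 : A₀ * ((j : ℝ) + 1) * a ^ j ≤ A₀ * ((n : ℝ) + L + r + 1) * (a ^ n * x₂ ^ (L + r)) :=
      mul_le_mul (mul_le_mul_of_nonneg_left hjr hA.le) hpow (by positivity) (by positivity)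
    have h5 : A₀ * ((n : ℝ) + L + r + 1) * (a ^ n * x₂ ^ (L + r)) ≤
        A₀ * ((n : ℝ) + 1) * a ^ n * (((n : ℝ) + L + r + 1) * x₂ ^ (L + r)) := by
      have h6 : 0 ≤ A₀ * a ^ n * (((n : ℝ) + L + r + 1) * x₂ ^ (L + r)) := by positivity
      nlinarith
    linarith
  have h4 : vp A₀ j a * ℓ ≤ vp A₀ n a * (((n : ℝ) + L + r + 1) * x₂ ^ (L + r)) * ℓ := mul_le_mul_of_nonneg_right h3 hℓ.le
  have h5 : 0 ≤ ((n : ℝ) + L + r + 1) * x₂ ^ (L + r) := by positivity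
  have h6 : vp A₀ n a * (((n : ℝ) + L + r + 1) * x₂ ^ (L + r)) * ℓ = (vp A₀ n a * ℓ) * (((n : ℝ) + L + r + 1) * x₂ ^ (L + r)) := by
    ring
  rw [h6] at h4
  exact h4.trans (mul_le_mul_of_nonneg_right hw.2 h5)

/-- one factor -/
lemma lin_one (P : PPar A₀ x₁ x₂ n₀ K n L r Q₀ ε) {a ℓ : ℝ} (ha : x₁ ≤ a) (hb : a + ℓ ≤ x₂) (hw : PWin A₀ n a ℓ) {j : ℕ}
    (hj0 : n₀ ≤ j) (hj : j ≤ n + L + r) {k : ℕ} (hk : k < K) (p : ℕ) :
    ∫ x in a..(a + ℓ), |haar k p (pw A₀ c n₀ j x) - haar k p (vp A₀ j a * x + (pw A₀ c n₀ j a - vp A₀ j a * a))| ≤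
      3 * (1 / 2) ^ (15 * K) * ℓ := by
  have hA := P.hA
  have h1 := P.h1
  have hK := P.hK
  obtain ⟨hℓ, hbas⟩ := basic P ha hw
  have hsp := speed P ha hb hw hj
  have ha1 : 1 ≤ a := by linarith
  have ha0 : 0 < a := by linarith
  have hx2 : 1 ≤ x₂ := by linarith [P.h12]
  obtain ⟨s, hs⟩ : ∃ s, s = vp A₀ j a := ⟨_, rfl⟩
  obtain ⟨m, hm⟩ : ∃ m : ℝ, m = (n : ℝ) + L + r + 1 := ⟨_, rfl⟩
  obtain ⟨X, hX⟩ : ∃ X : ℝ, X = x₂ ^ (L + r) := ⟨_, rfl⟩
  rw [← hs] at hsp ⊢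
  rw [← hm, ← hX] at hsp hbas
  have hs0 : 0 < s := by
    rw [hs]
    unfold vp
    positivity
  have hX1 : 1 ≤ X := by
    rw [hX]
    exact one_le_pow₀ hx2
  have hm1 : 1 ≤ m := by
    rw [hm]
    have h2 : (0 : ℝ) ≤ (n : ℝ) + L + r := by positivity
    linarith
  have hjm : (j : ℝ) ≤ m := by
    rw [hm]
    have : (j : ℝ) ≤ (n : ℝ) + L + r := by exact_mod_cast hj
    linarith
  have h2K : (1 : ℝ) ≤ 2 ^ (16 * K) := one_le_pow₀ one_le_two
  have hmX : 1 ≤ m ^ 2 * X := by nlinarith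
  -- `m ℓ` is small
  have hmℓ : m * ℓ ≤ 1 / 2 := by
    have h3 : m * ℓ ≤ m ^ 2 * X * 2 ^ (16 * K) * ℓ := by
      refine mul_le_mul_of_nonneg_right ?_ hℓ.le
      have h4 : m ≤ m ^ 2 * X := by nlinarith
      nlinarith
    linarith
  obtain ⟨η, hη⟩ : ∃ η : ℝ, η = 2 ^ (k + 1) * s * (m * ℓ ^ 2) := ⟨_, rfl⟩
  have hη0 : 0 ≤ η := by
    rw [hη]
    positivity
  -- the basic estimate
  have hest : m * ℓ * (2 ^ K * (s * ℓ) + 1) ≤ 3 / 2 * (1 / 2) ^ (15 * K) := by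
    have h3 : 2 ^ K * (s * ℓ) + 1 ≤ 2 ^ K * (3 * (m * X)) := by
      have h4 : (1 : ℝ) ≤ 2 ^ K := one_le_pow₀ one_le_two
      have h5 : 1 ≤ m * X := by nlinarith
      have h6 : 2 ^ K * (s * ℓ) ≤ 2 ^ K * (2 * (m * X)) := mul_le_mul_of_nonneg_left hsp (by positivity)
      nlinarith
    have h4 : m * ℓ * (2 ^ K * (s * ℓ) + 1) ≤ m * ℓ * (2 ^ K * (3 * (m * X))) :=
      mul_le_mul_of_nonneg_left h3 (by positivity)
    have h5 : m * ℓ * (2 ^ K * (3 * (m * X))) * (2 ^ (15 * K)) = 3 * (m ^ 2 * X * 2 ^ (16 * K) * ℓ) := by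
      have : (2 : ℝ) ^ (16 * K) = 2 ^ K * 2 ^ (15 * K) := by
        rw [← pow_add]
        congr 1
        omega
      rw [this]
      ring
    have h6 : (1 / 2 : ℝ) ^ (15 * K) * 2 ^ (15 * K) = 1 := by
      rw [← mul_pow]
      norm_num
    have h7 : m * ℓ * (2 ^ K * (3 * (m * X))) = m * ℓ * (2 ^ K * (3 * (m * X))) * 2 ^ (15 * K) * (1 / 2) ^ (15 * K) := by
      rw [mul_assoc (m * ℓ * (2 ^ K * (3 * (m * X)))), mul_comm ((2 : ℝ) ^ (15 * K)), h6, mul_one]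
    rw [h7, h5] at h4
    have h8 : 0 ≤ (1 / 2 : ℝ) ^ (15 * K) := by positivity
    nlinarith
  have hη1 : η ≤ 1 := by
    have h3 : η ≤ m * ℓ * (2 ^ K * (s * ℓ) + 1) := by
      have h4 : 0 ≤ m * ℓ := by positivity
      have h5 : (2 : ℝ) ^ (k + 1) * s * (m * ℓ ^ 2) ≤ 2 ^ K * s * (m * ℓ ^ 2) :=
        mul_le_mul_of_nonneg_right (mul_le_mul_of_nonneg_right (pow_le_pow_right₀ one_le_two hk) hs0.le) (by positivity)
      rw [← hη] at h5
      nlinarith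
    have h4 : (1 / 2 : ℝ) ^ (15 * K) ≤ 1 / 2 := by
      have h5 : (1 / 2 : ℝ) ^ (15 * K) ≤ (1 / 2) ^ 1 := pow_le_pow_of_le_one (by norm_num) (by norm_num) (by omega)
      linarith
    linarith
  -- pointwise
  have hpt : ∀ x ∈ Icc a (a + ℓ), |haar k p (pw A₀ c n₀ j x) - haar k p (s * x + (pw A₀ c n₀ j a - s * a))| ≤
      2 * gE η (2 ^ (k + 1) * (s * x + (pw A₀ c n₀ j a - s * a))) := by
    intro x hx
    have hpx : ∀ x, pw A₀ c n₀ j x = A₀ * x ^ (j + 1) + c j := fun x => if_neg (by omega)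
    obtain ⟨t1, t2⟩ := taylor ha0.le hx.1 j
    have hd : pw A₀ c n₀ j x - (s * x + (pw A₀ c n₀ j a - s * a)) =
        A₀ * (x ^ (j + 1) - a ^ (j + 1) - (j + 1) * a ^ j * (x - a)) := by
      rw [hpx, hpx, hs]
      unfold vp
      ring
    have hd0 : 0 ≤ pw A₀ c n₀ j x - (s * x + (pw A₀ c n₀ j a - s * a)) := by
      rw [hd]
      exact mul_nonneg hA.le t1
    have hxl : x - a ≤ ℓ := by linarith [hx.2]
    have hxa : 0 ≤ x - a := by linarith [hx.1]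
    have hx1 : 1 ≤ x := ha1.trans hx.1
    have h5 : x ^ j ≤ 2 * a ^ j := by
      have h6 : x ^ j ≤ (a + ℓ) ^ j := pow_le_pow_left₀ (by linarith) hx.2 j
      refine h6.trans (pow_double ha1 hℓ.le ?_)
      have : (j : ℝ) * ℓ ≤ m * ℓ := mul_le_mul_of_nonneg_right hjm hℓ.le
      linarith
    have h6 : x ^ (j + 1) - a ^ (j + 1) - (j + 1) * a ^ j * (x - a) ≤ j * (j + 1) * a ^ j * ℓ ^ 2 := by
      have h7 : x ^ (j + 1) - a ^ (j + 1) - (j + 1) * a ^ j * (x - a) ≤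
          x * (x ^ (j + 1) - a ^ (j + 1) - (j + 1) * a ^ j * (x - a)) := le_mul_of_one_le_left t1 hx1
      have h8 : (x - a) ^ 2 ≤ ℓ ^ 2 := pow_le_pow_left₀ hxa hxl 2
      have h9 : (j : ℝ) * (j + 1) / 2 * x ^ j * (x - a) ^ 2 ≤ j * (j + 1) / 2 * (2 * a ^ j) * ℓ ^ 2 := by
        refine mul_le_mul (mul_le_mul_of_nonneg_left h5 (by positivity)) h8 (sq_nonneg _) (by positivity)
      nlinarith
    refine haar_near k p (by linarith) ?_
    rw [hd, hη]
    have h7 : A₀ * (x ^ (j + 1) - a ^ (j + 1) - (j + 1) * a ^ j * (x - a)) ≤ s * (m * ℓ ^ 2) := by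
      have h8 : A₀ * (x ^ (j + 1) - a ^ (j + 1) - (j + 1) * a ^ j * (x - a)) ≤ A₀ * (j * (j + 1) * a ^ j * ℓ ^ 2) :=
        mul_le_mul_of_nonneg_left h6 hA.le
      have h9 : A₀ * (j * (j + 1) * a ^ j * ℓ ^ 2) = s * (j * ℓ ^ 2) := by
        rw [hs]
        unfold vp
        ring
      have h10 : s * (j * ℓ ^ 2) ≤ s * (m * ℓ ^ 2) :=
        mul_le_mul_of_nonneg_left (mul_le_mul_of_nonneg_right hjm (sq_nonneg _)) hs0.le
      linarith
    have h10 : (2 : ℝ) ^ (k + 1) * (A₀ * (x ^ (j + 1) - a ^ (j + 1) - (j + 1) * a ^ j * (x - a))) ≤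
        2 ^ (k + 1) * (s * (m * ℓ ^ 2)) := mul_le_mul_of_nonneg_left h7 (by positivity)
    linarith
  -- the integral
  obtain ⟨σ, hσ⟩ : ∃ σ : ℝ, σ = 2 ^ (k + 1) * s := ⟨_, rfl⟩
  have hσ0 : 0 < σ := by
    rw [hσ]
    positivity
  have hσK : σ ≤ 2 ^ K * s := by
    rw [hσ]
    exact mul_le_mul_of_nonneg_right (pow_le_pow_right₀ one_le_two hk) hs0.le
  have hmpw : Measurable (pw A₀ c n₀ j) := by
    have e : pw A₀ c n₀ j = fun x => A₀ * x ^ (j + 1) + c j := by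
      funext x
      exact if_neg (by omega)
    rw [e]
    exact ((measurable_id.pow_const _).const_mul _).add_const _
  have hml : Measurable fun x : ℝ => s * x + (pw A₀ c n₀ j a - s * a) := (measurable_id.const_mul s).add_const _
  have hI1 : IntervalIntegrable (fun x => |haar k p (pw A₀ c n₀ j x) - haar k p (s * x + (pw A₀ c n₀ j a - s * a))|)
      volume a (a + ℓ) := by
    refine ii_bdd (C := 2) ?_ (fun x => ?_) a (a + ℓ)
    · exact (((haar_meas k p).comp hmpw).sub ((haar_meas k p).comp hml)).abs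
    · rw [abs_abs]
      have b1 := haar_abs k p (pw A₀ c n₀ j x)
      have b2 := haar_abs k p (s * x + (pw A₀ c n₀ j a - s * a))
      have := abs_sub (haar k p (pw A₀ c n₀ j x)) (haar k p (s * x + (pw A₀ c n₀ j a - s * a)))
      linarith
  have hI2 : IntervalIntegrable (fun x => 2 * gE η (2 ^ (k + 1) * (s * x + (pw A₀ c n₀ j a - s * a)))) volume a (a + ℓ) := by
    refine ii_bdd (C := 2) ?_ (fun x => ?_) a (a + ℓ)
    · exact ((gE_meas η).comp (hml.const_mul _)).const_mul 2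
    · rw [abs_mul, abs_two]
      have := gE_abs η (2 ^ (k + 1) * (s * x + (pw A₀ c n₀ j a - s * a)))
      linarith
  have h3 := intervalIntegral.integral_mono_on (by linarith : a ≤ a + ℓ) hI1 hI2 hpt
  refine h3.trans ?_
  have e1 : ∫ x in a..(a + ℓ), 2 * gE η (2 ^ (k + 1) * (s * x + (pw A₀ c n₀ j a - s * a))) =
      2 * (σ⁻¹ * ∫ y in (σ * a + 2 ^ (k + 1) * (pw A₀ c n₀ j a - s * a))..(σ * a + 2 ^ (k + 1) * (pw A₀ c n₀ j a - s * a)) + σ * ℓ,
        gE η y) := by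
    rw [intervalIntegral.integral_const_mul]
    congr 1
    have h4 := intervalIntegral.integral_comp_mul_add (a := a) (b := a + ℓ) (gE η) hσ0.ne' (2 ^ (k + 1) * (pw A₀ c n₀ j a - s * a))
    rw [smul_eq_mul] at h4
    have h5 : σ * (a + ℓ) + 2 ^ (k + 1) * (pw A₀ c n₀ j a - s * a) = σ * a + 2 ^ (k + 1) * (pw A₀ c n₀ j a - s * a) + σ * ℓ := by
      ring
    rw [h5] at h4
    rw [← h4]
    refine intervalIntegral.integral_congr fun x _ => ?_
    show gE η (2 ^ (k + 1) * (s * x + (pw A₀ c n₀ j a - s * a))) = gE η (σ * x + 2 ^ (k + 1) * (pw A₀ c n₀ j a - s * a))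
    congr 1
    rw [hσ]
    ring
  rw [e1]
  have h4 := gE_long hη0 hη1 (σ * a + 2 ^ (k + 1) * (pw A₀ c n₀ j a - s * a)) (len := σ * ℓ) (by positivity)
  have h5 : 2 * (σ⁻¹ * ∫ y in (σ * a + 2 ^ (k + 1) * (pw A₀ c n₀ j a - s * a))..(σ * a + 2 ^ (k + 1) * (pw A₀ c n₀ j a - s * a)) + σ * ℓ,
      gE η y) ≤ 2 * (σ⁻¹ * ((σ * ℓ + 1) * η)) :=
    mul_le_mul_of_nonneg_left (mul_le_mul_of_nonneg_left h4 (inv_pos.2 hσ0).le) two_pos.le
  refine h5.trans ?_
  have h6 : σ⁻¹ * ((σ * ℓ + 1) * η) = (σ * ℓ + 1) * (m * ℓ ^ 2) := by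
    rw [hη, ← hσ]
    field_simp
  rw [h6]
  have h7 : (σ * ℓ + 1) * (m * ℓ ^ 2) ≤ m * ℓ * (2 ^ K * (s * ℓ) + 1) * ℓ := by
    have h8 : σ * ℓ ≤ 2 ^ K * s * ℓ := mul_le_mul_of_nonneg_right hσK hℓ.le
    have h9 : (σ * ℓ + 1) * (m * ℓ ^ 2) ≤ (2 ^ K * s * ℓ + 1) * (m * ℓ ^ 2) :=
      mul_le_mul_of_nonneg_right (by linarith) (by positivity)
    refine h9.trans (le_of_eq ?_)
    ring
  have h8 : m * ℓ * (2 ^ K * (s * ℓ) + 1) * ℓ ≤ 3 / 2 * (1 / 2) ^ (15 * K) * ℓ := mul_le_mul_of_nonneg_right hest hℓ.le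
  linarith

/-- the powers of a window may be replaced by their linearisations -/
theorem pc_lin (P : PPar A₀ x₁ x₂ n₀ K n L r Q₀ ε) {a ℓ : ℝ} (ha : x₁ ≤ a) (hb : a + ℓ ≤ x₂) (hw : PWin A₀ n a ℓ)
    {i t : ℕ} (hi0 : n₀ ≤ i) (ht0 : n₀ ≤ t) (hi : i ≤ n + L + r) (ht : t ≤ n + L + r) {k k' : ℕ} (hk : k < K) (hk' : k' < K)
    (p q : ℕ) :
    |av (fun x => haar k p (pw A₀ c n₀ i x) * haar k' q (pw A₀ c n₀ t x)) a ℓ -
      av (fun x => haar k p (vp A₀ i a * x + (pw A₀ c n₀ i a - vp A₀ i a * a)) *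
        haar k' q (vp A₀ t a * x + (pw A₀ c n₀ t a - vp A₀ t a * a))) a ℓ| ≤ (1 / 2) ^ (11 * K) := by
  obtain ⟨hℓ, -⟩ := basic P ha hw
  have hK := P.hK
  have l1 := lin_one (c := c) P ha hb hw hi0 hi hk p
  have l2 := lin_one (c := c) P ha hb hw ht0 ht hk' q
  have hmpw : ∀ {j : ℕ}, n₀ ≤ j → Measurable (pw A₀ c n₀ j) := by
    intro j hj
    have e : pw A₀ c n₀ j = fun x => A₀ * x ^ (j + 1) + c j := by
      funext x
      exact if_neg (by omega)
    rw [e]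
    exact ((measurable_id.pow_const _).const_mul _).add_const _
  have hml : ∀ j : ℕ, Measurable fun x : ℝ => vp A₀ j a * x + (pw A₀ c n₀ j a - vp A₀ j a * a) :=
    fun j => (measurable_id.const_mul _).add_const _
  obtain ⟨f1, hf1⟩ : ∃ f : ℝ → ℝ, f = fun x => haar k p (pw A₀ c n₀ i x) := ⟨_, rfl⟩
  obtain ⟨f2, hf2⟩ : ∃ f : ℝ → ℝ, f = fun x => haar k' q (pw A₀ c n₀ t x) := ⟨_, rfl⟩
  obtain ⟨g1, hg1⟩ : ∃ g : ℝ → ℝ, g = fun x => haar k p (vp A₀ i a * x + (pw A₀ c n₀ i a - vp A₀ i a * a)) := ⟨_, rfl⟩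
  obtain ⟨g2, hg2⟩ : ∃ g : ℝ → ℝ, g = fun x => haar k' q (vp A₀ t a * x + (pw A₀ c n₀ t a - vp A₀ t a * a)) := ⟨_, rfl⟩
  have mf1 : Measurable f1 := by rw [hf1]; exact (haar_meas k p).comp (hmpw hi0)
  have mf2 : Measurable f2 := by rw [hf2]; exact (haar_meas k' q).comp (hmpw ht0)
  have mg1 : Measurable g1 := by rw [hg1]; exact (haar_meas k p).comp (hml i)
  have mg2 : Measurable g2 := by rw [hg2]; exact (haar_meas k' q).comp (hml t)
  have bf1 : ∀ x, |f1 x| ≤ 1 := fun x => by rw [hf1]; exact haar_abs _ _ _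
  have bf2 : ∀ x, |f2 x| ≤ 1 := fun x => by rw [hf2]; exact haar_abs _ _ _
  have bg1 : ∀ x, |g1 x| ≤ 1 := fun x => by rw [hg1]; exact haar_abs _ _ _
  have bg2 : ∀ x, |g2 x| ≤ 1 := fun x => by rw [hg2]; exact haar_abs _ _ _
  have k1 : ∫ x in a..(a + ℓ), |f1 x - g1 x| ≤ 3 * (1 / 2) ^ (15 * K) * ℓ := by rw [hf1, hg1]; exact l1
  have k2 : ∫ x in a..(a + ℓ), |f2 x - g2 x| ≤ 3 * (1 / 2) ^ (15 * K) * ℓ := by rw [hf2, hg2]; exact l2
  have goal' : |av (fun x => f1 x * f2 x) a ℓ - av (fun x => g1 x * g2 x) a ℓ| ≤ (1 / 2) ^ (11 * K) := by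
    have i1 : IntervalIntegrable (fun x => f1 x * f2 x) volume a (a + ℓ) := by
      refine ii_bdd (C := 1) (mf1.mul mf2) (fun x => ?_) a (a + ℓ)
      show |f1 x * f2 x| ≤ 1
      rw [abs_mul]
      exact mul_le_one₀ (bf1 x) (abs_nonneg _) (bf2 x)
    have i2 : IntervalIntegrable (fun x => g1 x * g2 x) volume a (a + ℓ) := by
      refine ii_bdd (C := 1) (mg1.mul mg2) (fun x => ?_) a (a + ℓ)
      show |g1 x * g2 x| ≤ 1
      rw [abs_mul]
      exact mul_le_one₀ (bg1 x) (abs_nonneg _) (bg2 x)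
    have i3 : IntervalIntegrable (fun x => |f1 x - g1 x|) volume a (a + ℓ) := by
      refine ii_bdd (C := 2) (mf1.sub mg1).abs (fun x => ?_) a (a + ℓ)
      rw [abs_abs]
      show |f1 x - g1 x| ≤ 2
      have := abs_sub (f1 x) (g1 x)
      linarith [bf1 x, bg1 x]
    have i4 : IntervalIntegrable (fun x => |f2 x - g2 x|) volume a (a + ℓ) := by
      refine ii_bdd (C := 2) (mf2.sub mg2).abs (fun x => ?_) a (a + ℓ)
      rw [abs_abs]
      show |f2 x - g2 x| ≤ 2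
      have := abs_sub (f2 x) (g2 x)
      linarith [bf2 x, bg2 x]
    have e : av (fun x => f1 x * f2 x) a ℓ - av (fun x => g1 x * g2 x) a ℓ =
        (∫ x in a..(a + ℓ), (f1 x * f2 x - g1 x * g2 x)) / ℓ := by
      rw [intervalIntegral.integral_sub i1 i2]
      unfold av
      ring
    rw [e, abs_div, abs_of_pos hℓ, div_le_iff₀ hℓ]
    have h1 : |∫ x in a..(a + ℓ), (f1 x * f2 x - g1 x * g2 x)| ≤ ∫ x in a..(a + ℓ), (|f1 x - g1 x| + |f2 x - g2 x|) := by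
      refine (intervalIntegral.abs_integral_le_integral_abs (by linarith)).trans ?_
      refine intervalIntegral.integral_mono_on (by linarith) (i1.sub i2).abs (i3.add i4) fun x _ => ?_
      have e1 : f1 x * f2 x - g1 x * g2 x = (f1 x - g1 x) * f2 x + g1 x * (f2 x - g2 x) := by ring
      rw [e1]
      refine (abs_add_le _ _).trans ?_
      rw [abs_mul, abs_mul]
      have a1 : |f1 x - g1 x| * |f2 x| ≤ |f1 x - g1 x| * 1 := mul_le_mul_of_nonneg_left (bf2 x) (abs_nonneg _)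
      have a2 : |g1 x| * |f2 x - g2 x| ≤ 1 * |f2 x - g2 x| := mul_le_mul_of_nonneg_right (bg1 x) (abs_nonneg _)
      linarith
    rw [intervalIntegral.integral_add i3 i4] at h1
    have h2 : 6 * (1 / 2 : ℝ) ^ (15 * K) ≤ (1 / 2) ^ (11 * K) := by
      have e2 : (1 / 2 : ℝ) ^ (15 * K) = (1 / 2) ^ (11 * K) * (1 / 2) ^ (4 * K) := by
        rw [← pow_add]
        congr 1
        omega
      have h3 : (1 / 2 : ℝ) ^ (4 * K) ≤ (1 / 2) ^ 4 := pow_le_pow_of_le_one (by norm_num) (by norm_num) (by omega)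
      have h4 : 0 ≤ (1 / 2 : ℝ) ^ (11 * K) := by positivity
      rw [e2]
      nlinarith
    have h3 : 6 * (1 / 2 : ℝ) ^ (15 * K) * ℓ ≤ (1 / 2) ^ (11 * K) * ℓ := mul_le_mul_of_nonneg_right h2 hℓ.le
    linarith
  rw [hf1, hf2, hg1, hg2] at goal'
  exact goal'

end lin

end Pool.Agent.Helper67.LD2
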